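import Mathlib
import Pool.Agent.Lib.helper1.Aldous

set_option autoImplicit false
set_option linter.unusedSectionVars false

open Finset Filter Topology Matrix

namespace Pool.Agent.Results.MP_bada7b_pr.ThreeState

section Defs
variable {S : Type} [Fintype S] [DecidableEq S]

/-- Dirichlet form `⟨(I - P) f, g⟩_π`. -/
noncomputable def dir (P : Matrix S S ℝ) (π : S → ℝ) (f g : S → ℝ) : ℝ :=
  ∑ x, π x * ((1 - P) *ᵥ f) x * g x

/-- Entropy functional. -/
noncomputable def entr (π : S → ℝ) (f : S → ℝ) : ℝ :=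
  ∑ x, π x * (f x * Real.log (f x)) - (∑ x, π x * f x) * Real.log (∑ x, π x * f x)

/-- Modified log-Sobolev constant. -/
noncomputable def cMLS (P : Matrix S S ℝ) (π : S → ℝ) : ℝ :=
  sInf {r : ℝ | ∃ f : S → ℝ, (∃ x y, f x ≠ f y) ∧
    r = dir P π (fun x => Real.exp (f x)) f / entr π (fun x => Real.exp (f x))}

/-- Entropy mixing time. -/
noncomputable def tauEnt (P : Matrix S S ℝ) (π : S → ℝ) : ℝ :=
  ⨆ x : S, sInf {t : ℝ | 0 ≤ t ∧ ∑ y, NormedSpace.exp (t • (P - 1)) x y *
    Real.log (NormedSpace.exp (t • (P - 1)) x y / π y) ≤ 1 / 2}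

/-- The transition matrix killed outside `A`. -/
def killed (P : Matrix S S ℝ) (A : Finset S) : Matrix S S ℝ :=
  fun x y => if x ∈ A ∧ y ∈ A then P x y else 0

/-- Probability that the chain started at `x` has not left `A` by time `t`. -/
noncomputable def surv (P : Matrix S S ℝ) (A : Finset S) (x : S) (t : ℝ) : ℝ :=
  ∑ y ∈ A, NormedSpace.exp (t • (killed P A - 1)) x y

/-- Entropy hitting-time parameter with constant `c`, over all nonempty `A` of mass at most
one half. -/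
noncomputable def rhoEnt (c : ℝ) (P : Matrix S S ℝ) (π : S → ℝ) : ℝ :=
  ⨆ x : S, sInf {t : ℝ | 0 ≤ t ∧ ∀ A : Finset S, A.Nonempty → ∑ y ∈ A, π y ≤ 1 / 2 →
    surv P A x t ≤ min (c / |Real.log (∑ y ∈ A, π y)|) (99 / 100)}

end Defs

open Pool.Agent.Lib.helper1.Heat Pool.Agent.Lib.helper1.Aldous

lemma drift {S : Type} [Fintype S] [DecidableEq S] (K : Matrix S S ℝ) (hK : ∀ x y, 0 ≤ K x y)
    (hr : ∀ x, ∑ y, K x y ≤ 1) (u : S → ℝ) (b : ℝ) (hb : 0 ≤ b)
    (hu : ∀ x, ∑ y, K x y * u y ≤ 5 / 6 * u x + b) (t : ℝ) (ht : 0 ≤ t) (x : S) :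
    ∑ y, NormedSpace.exp (t • (K - 1)) x y * u y ≤ Real.exp (-(t / 6)) * u x + 6 * b := by
  have h0 : ∀ k : ℕ, ∀ x, ∑ y, (K ^ k) x y * u y ≤
      (5 / 6) ^ k * u x + 6 * b * (1 - (5 / 6) ^ k) := by
    intro k
    induction k with
    | zero => intro x; simp [Matrix.one_apply]
    | succ k ih =>
      intro x
      simp only [pow_succ' K, Matrix.mul_apply, Finset.sum_mul]
      rw [Finset.sum_comm]
      simp only [mul_assoc, ← Finset.mul_sum]
      have h2 := Finset.sum_le_sum fun w (_ : w ∈ univ) =>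
        mul_le_mul_of_nonneg_left (ih w) (hK x w)
      refine h2.trans ?_
      have h3 : ∑ w, K x w * ((5 / 6) ^ k * u w + 6 * b * (1 - (5 / 6) ^ k)) =
          (5 / 6) ^ k * ∑ w, K x w * u w + 6 * b * (1 - (5 / 6) ^ k) * ∑ w, K x w := by
        rw [Finset.mul_sum, Finset.mul_sum, ← Finset.sum_add_distrib]
        exact Finset.sum_congr rfl fun w _ => by ring
      have h4 : (0 : ℝ) ≤ (5 / 6) ^ k := by positivity
      have h5 : ((5 : ℝ) / 6) ^ k ≤ 1 := pow_le_one₀ (by norm_num) (by norm_num)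
      have h6 := mul_le_mul_of_nonneg_left (hu x) h4
      have h7 := mul_le_mul_of_nonneg_left (hr x)
        (show 0 ≤ 6 * b * (1 - (5 / 6) ^ k) from mul_nonneg (by linarith) (by linarith))
      rw [h3, pow_succ]
      linarith
  have h1 : ∀ k : ℕ, ∀ x, ∑ y, (K ^ k) x y * u y ≤ (5 / 6) ^ k * u x + 6 * b := by
    intro k x
    have h4 : (0 : ℝ) ≤ b * (5 / 6) ^ k := by positivity
    linarith [h0 k x]
  have h2 : HasSum (fun k : ℕ => po t k * ∑ y, (K ^ k) x y * u y)
      (∑ y, NormedSpace.exp (t • (K - 1)) x y * u y) := by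
    simp only [Finset.mul_sum, ← mul_assoc]
    exact hasSum_sum fun y _ => (hs_heat K t x y).mul_right _
  have h3 := ((hs_geo t (5 / 6)).mul_right (u x)).add ((hs_one t).mul_right (6 * b))
  rw [show t * (1 - 5 / 6) = t / 6 by ring, one_mul] at h3
  refine hasSum_le (fun k => ?_) h2 h3
  have := mul_le_mul_of_nonneg_left (h1 k x) (po_nonneg ht k)
  refine this.trans (le_of_eq ?_)
  ring

noncomputable def PP (ε : ℝ) : Matrix (Fin 3) (Fin 3) ℝ :=
  !![1 / 2, 1 / 2, 0; 1 / 2, 0, 1 / 2; 0, ε / (2 * (1 - 2 * ε)), 1 - ε / (2 * (1 - 2 * ε))]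

noncomputable def pp (ε : ℝ) : Fin 3 → ℝ := ![ε, ε, 1 - 2 * ε]

section
variable {ε : ℝ} (h0 : 0 < ε) (h1 : ε ≤ 1 / 10)
include h0 h1

lemma q_le : ε / (2 * (1 - 2 * ε)) ≤ ε := by
  rw [div_le_iff₀ (by linarith)]; nlinarith

lemma q_pos : 0 < ε / (2 * (1 - 2 * ε)) := div_pos h0 (by linarith)

lemma PP_nn (x y : Fin 3) : 0 ≤ PP ε x y := by
  have := q_le h0 h1; have := q_pos h0 h1
  fin_cases x <;> fin_cases y <;> simp [PP] <;> linarith

lemma PP_row (x : Fin 3) : ∑ y, PP ε x y = 1 := by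
  fin_cases x <;> simp [PP, Fin.sum_univ_three] <;> norm_num

lemma pp_pos (x : Fin 3) : 0 < pp ε x := by
  fin_cases x <;> simp [pp] <;> linarith

lemma pp_ge (x : Fin 3) : ε ≤ pp ε x := by
  fin_cases x <;> simp [pp]; linarith

lemma pp_sum : ∑ x, pp ε x = 1 := by simp [pp, Fin.sum_univ_three]; ring

lemma PP_rev (x y : Fin 3) : pp ε x * PP ε x y = pp ε y * PP ε y x := by
  have : (1 - 2 * ε) ≠ 0 := by linarith
  have : (1 - ε * 2) ≠ 0 := by linarith
  fin_cases x <;> fin_cases y <;> simp [PP, pp] <;> field_simp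

lemma PP_irr (x y : Fin 3) : Relation.ReflTransGen (fun a b => 0 < PP ε a b) x y := by
  have := q_pos h0 h1
  have a01 : Relation.ReflTransGen (fun a b => 0 < PP ε a b) 0 1 := .single (by simp [PP])
  have a10 : Relation.ReflTransGen (fun a b => 0 < PP ε a b) 1 0 := .single (by simp [PP])
  have a12 : Relation.ReflTransGen (fun a b => 0 < PP ε a b) 1 2 := .single (by simp [PP])
  have a21 : Relation.ReflTransGen (fun a b => 0 < PP ε a b) 2 1 := .single (by simpa [PP])
  fin_cases x <;> fin_cases y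
  exacts [.refl, a01, a01.trans a12, a10, .refl, a12, a21.trans a10, a21, .refl]

end

lemma cMLS_le (m : ℝ) (hm : 10 ≤ m) :
    cMLS (PP (Real.exp (-Real.exp m))) (pp (Real.exp (-Real.exp m))) ≤
      (m + 1) / Real.exp m := by
  set h := Real.exp m with hh
  have hh1 : m + 1 ≤ h := Real.add_one_le_exp m
  have hh2 : 1 + m + m ^ 2 / 2 ≤ h := Real.quadratic_le_exp_of_nonneg (by linarith)
  set ε := Real.exp (-h) with hε
  have hε0 : 0 < ε := Real.exp_pos _
  have hεe : ε * Real.exp h = 1 := by rw [hε, ← Real.exp_add]; simp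
  have hε1 : ε ≤ 1 / 10 := by
    have := Real.add_one_le_exp h
    rw [le_div_iff₀ (by norm_num)]; nlinarith
  have hεm : ε * Real.exp (h - m) = 1 / h := by
    rw [Real.exp_sub, ← hh, ← mul_div_assoc, hεe]
  by_cases hb : BddBelow {r : ℝ | ∃ f : Fin 3 → ℝ, (∃ x y, f x ≠ f y) ∧
      r = dir (PP ε) (pp ε) (fun x => Real.exp (f x)) f / entr (pp ε) (fun x => Real.exp (f x))}
  swap
  · rw [cMLS, Real.sInf_of_not_bddBelow hb]; positivity
  refine (csInf_le hb ⟨![h, h - m, 0], ⟨0, 2, by simp; linarith⟩, rfl⟩).trans ?_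
  have hne : (1 - 2 * ε) ≠ 0 := by linarith
  have e1 : dir (PP ε) (pp ε) (fun x => Real.exp (![h, h - m, 0] x)) ![h, h - m, 0] =
      (1 / 2) * (ε * Real.exp h - ε * Real.exp (h - m)) * m +
        (1 / 2) * (ε * Real.exp (h - m) - ε) * (h - m) := by
    simp [dir, PP, pp, Fin.sum_univ_three, Matrix.mulVec, dotProduct, Matrix.one_apply]
    ring
  have e2 : entr (pp ε) (fun x => Real.exp (![h, h - m, 0] x)) =
      ε * Real.exp h * h + ε * Real.exp (h - m) * (h - m) -
        (ε * Real.exp h + ε * Real.exp (h - m) + (1 - 2 * ε)) *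
          Real.log (ε * Real.exp h + ε * Real.exp (h - m) + (1 - 2 * ε)) := by
    simp [entr, pp, Fin.sum_univ_three]
    ring
  rw [e1, e2, hεe, hεm]
  have hpos : 0 < h := by linarith
  have i1 : 0 < 1 / h := by positivity
  have i2 : 1 / h ≤ 1 := by rw [div_le_one hpos]; linarith
  have i3 : 1 / h * h = 1 := by field_simp
  have i4 : Real.log (1 + 1 / h + (1 - 2 * ε)) ≤ 2 :=
    (Real.log_le_sub_one_of_pos (by linarith)).trans (by linarith)
  have i5 : (1 + 1 / h + (1 - 2 * ε)) * Real.log (1 + 1 / h + (1 - 2 * ε)) ≤ 3 * 2 :=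
    (mul_le_mul_of_nonneg_left i4 (by linarith)).trans (by linarith)
  have i6 : 0 ≤ 1 / h * (h - m) := mul_nonneg i1.le (by linarith)
  have i7 : h / 2 ≤ 1 * h + 1 / h * (h - m) -
      (1 + 1 / h + (1 - 2 * ε)) * Real.log (1 + 1 / h + (1 - 2 * ε)) := by nlinarith
  have i8 : 1 / 2 * (1 - 1 / h) * m + 1 / 2 * (1 / h - ε) * (h - m) ≤ (m + 1) / 2 := by
    have : 0 ≤ ε * (h - m) := mul_nonneg hε0.le (by linarith)
    have : 0 ≤ 1 / h * m := by positivity
    nlinarith
  calc _ ≤ ((m + 1) / 2) / (h / 2) := by gcongr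
    _ = _ := by field_simp

lemma times_le (c m : ℝ) (hc : 0 < c) (hm : 10 ≤ m) (hcm : 2 * Real.exp (-m) ≤ c) :
    tauEnt (PP (Real.exp (-Real.exp m))) (pp (Real.exp (-Real.exp m))) ≤ 12 * m ∧
    rhoEnt c (PP (Real.exp (-Real.exp m))) (pp (Real.exp (-Real.exp m))) ≤ 12 * m := by
  set h := Real.exp m with hh
  have hh1 : m + 1 ≤ h := Real.add_one_le_exp m
  set ε := Real.exp (-h) with hε
  have hε0 : 0 < ε := Real.exp_pos _
  have hεe : ε * Real.exp h = 1 := by rw [hε, ← Real.exp_add]; simp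
  have hh3 := Real.sum_le_exp_of_nonneg (x := h) (by linarith) 4
  simp only [Finset.sum_range_succ, Finset.sum_range_zero, Nat.factorial] at hh3
  norm_num at hh3
  have hεh : ε * h ≤ 1 / 20 := by
    have h3 : 20 * h ≤ Real.exp h := by nlinarith
    nlinarith
  have hε1 : ε ≤ 1 / 100 := by nlinarith
  have hε1' : ε ≤ 1 / 10 := by linarith
  have hE : Real.exp (-(12 * m / 6)) * h = Real.exp (-m) := by
    rw [hh, ← Real.exp_add]; congr 1; ring
  have hEm : Real.exp (-m) ≤ 1 / 11 := by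
    rw [Real.exp_neg, ← one_div]; exact one_div_le_one_div_of_le (by norm_num) (by linarith)
  have hE0 := Real.exp_pos (-(12 * m / 6))
  have hq := q_le hε0 hε1'
  have hq0 := q_pos hε0 hε1'
  let u : Fin 3 → ℝ := ![3 / 2, 1, 0]
  constructor
  · refine ciSup_le fun x => csInf_le ⟨0, fun t ht => ht.1⟩ ⟨by linarith, ?_⟩
    have h1 := drift (PP ε) (PP_nn hε0 hε1') (fun x => (PP_row hε0 hε1' x).le) u ε hε0.le
      (fun x => by fin_cases x <;> simp [PP, u, Fin.sum_univ_three] <;> linarith)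
      (12 * m) (by linarith) x
    have h2 := heat_row (PP_row hε0 hε1') (12 * m) x
    have h3 := fun y => heat_nn (PP_nn hε0 hε1') (show (0 : ℝ) ≤ 12 * m by linarith) x y
    have h4 := ent_up (fun y => NormedSpace.exp ((12 * m) • (PP ε - 1)) x y) (pp ε) h3 h2
      (pp_pos hε0 hε1') 2 (4 * ε) h (by linarith) (by
        rw [← Real.log_inv]
        refine (Real.log_le_sub_one_of_pos (inv_pos.2 (pp_pos hε0 hε1' 2))).trans ?_
        simp only [pp, Matrix.cons_val]
        rw [sub_le_iff_le_add, inv_eq_one_div, div_le_iff₀ (by linarith)]; nlinarith)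
      (fun y => by
        have := Real.log_le_log hε0 (pp_ge hε0 hε1' y)
        rw [hε, Real.log_exp] at this; linarith)
    refine h4.trans ?_
    have h5 : u x ≤ 3 / 2 := by fin_cases x <;> simp [u] <;> norm_num
    simp only [Fin.sum_univ_three, u, Matrix.cons_val] at h1 h2
    have h6 : 1 - NormedSpace.exp ((12 * m) • (PP ε - 1)) x 2 ≤
        Real.exp (-(12 * m / 6)) * (3 / 2) + 6 * ε := by
      have := mul_le_mul_of_nonneg_left h5 hE0.le
      simp only [u] at this
      linarith [h3 0, h3 1]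
    have h7 := mul_le_mul_of_nonneg_left h6 (show 0 ≤ h by linarith)
    nlinarith
  · refine ciSup_le fun x => csInf_le ⟨0, fun t ht => ht.1⟩ ⟨by linarith, fun A hA hA2 => ?_⟩
    have h2A : (2 : Fin 3) ∉ A := by
      intro h2
      have := Finset.single_le_sum (f := pp ε) (fun y _ => (pp_pos hε0 hε1' y).le) h2
      simp only [pp, Matrix.cons_val] at this
      simp only [pp] at hA2
      linarith
    have hk : ∀ x y, 0 ≤ killed (PP ε) A x y ∧ killed (PP ε) A x y ≤ PP ε x y := by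
      intro x y
      have := PP_nn hε0 hε1' x y
      unfold killed; split_ifs <;> simp [this]
    have hun : ∀ y, 0 ≤ u y := fun y => by fin_cases y <;> simp [u]; norm_num
    have h1 := drift (killed (PP ε) A) (fun x y => (hk x y).1)
      (fun x => (Finset.sum_le_sum fun y _ => (hk x y).2).trans (PP_row hε0 hε1' x).le) u 0 le_rfl
      (fun x => by
        by_cases hx : x = 2
        · subst hx; simp [killed, h2A, u]
        · refine (Finset.sum_le_sum fun y _ =>
            mul_le_mul_of_nonneg_right (hk x y).2 (hun y)).trans ?_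
          fin_cases x
          · simp [PP, u, Fin.sum_univ_three]; norm_num
          · simp [PP, u, Fin.sum_univ_three]; norm_num
          · exact absurd rfl hx)
      (12 * m) (by linarith) x
    have h3 := fun y => heat_nn (fun x y => (hk x y).1) (show (0 : ℝ) ≤ 12 * m by linarith) x y
    have h4 : surv (PP ε) A x (12 * m) ≤
        ∑ y, NormedSpace.exp ((12 * m) • (killed (PP ε) A - 1)) x y * u y := by
      refine le_trans (Finset.sum_le_sum fun y hy => ?_)
        (Finset.sum_le_sum_of_subset_of_nonneg (Finset.subset_univ A)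
          fun y _ _ => mul_nonneg (h3 y) (hun y))
      have : 1 ≤ u y := by
        fin_cases y
        · simp [u]; norm_num
        · simp [u]
        · exact absurd hy h2A
      nlinarith [h3 y]
    have h5 : u x ≤ 3 / 2 := by fin_cases x <;> simp [u] <;> norm_num
    have h6 : surv (PP ε) A x (12 * m) ≤ Real.exp (-(12 * m / 6)) * (3 / 2) := by
      have := mul_le_mul_of_nonneg_left h5 hE0.le
      linarith
    obtain ⟨a, ha⟩ := hA
    have h7 : ε ≤ ∑ y ∈ A, pp ε y := (pp_ge hε0 hε1' a).trans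
      (Finset.single_le_sum (f := pp ε) (fun y _ => (pp_pos hε0 hε1' y).le) ha)
    have h8 : Real.log (∑ y ∈ A, pp ε y) < 0 := Real.log_neg (by linarith) (by linarith)
    have h9 : -h ≤ Real.log (∑ y ∈ A, pp ε y) := by
      have := Real.log_le_log hε0 h7
      rwa [hε, Real.log_exp] at this
    refine h6.trans (le_min ?_ (by nlinarith))
    rw [abs_of_neg h8, le_div_iff₀ (by linarith)]
    nlinarith [Real.exp_pos (-m)]

lemma psi (a b : ℝ) :
    2 * (Real.exp (a / 2) - Real.exp (b / 2)) ^ 2 ≤ (Real.exp a - Real.exp b) * (a - b) := by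
  wlog h : b ≤ a generalizing a b
  · have := this b a (le_of_not_ge h); nlinarith
  have hu := Real.exp_pos (a / 2)
  have hv := Real.exp_pos (b / 2)
  have h1 : Real.exp a = Real.exp (a / 2) ^ 2 := by rw [← Real.exp_nat_mul]; congr 1; ring
  have h2 : Real.exp b = Real.exp (b / 2) ^ 2 := by rw [← Real.exp_nat_mul]; congr 1; ring
  have h3 : Real.exp (b / 2) ≤ Real.exp (a / 2) := by gcongr
  have h4 : Real.exp (a / 2) * (1 + (b / 2 - a / 2)) ≤ Real.exp (b / 2) := by
    have := Real.add_one_le_exp (b / 2 - a / 2)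
    rw [Real.exp_sub, le_div_iff₀ hu] at this; linarith
  rw [h1, h2]
  set u := Real.exp (a / 2)
  set v := Real.exp (b / 2)
  have h5 : 0 ≤ (u - v) * (u * (a - b) - 2 * (u - v)) := mul_nonneg (by linarith) (by linarith)
  have h6 : 0 ≤ (u - v) * (v * (a - b)) :=
    mul_nonneg (by linarith) (mul_nonneg hv.le (by linarith))
  nlinarith

lemma cMLS_pos {ε : ℝ} (h0 : 0 < ε) (h1 : ε ≤ 1 / 10) : 0 < cMLS (PP ε) (pp ε) := by
  refine lt_of_lt_of_le (show 0 < ε ^ 2 / 12 by positivity) (le_csInf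
    ⟨_, ![1, 0, 0], ⟨0, 1, by simp⟩, rfl⟩ ?_)
  rintro r ⟨f, ⟨x, y, hxy⟩, rfl⟩
  have hne : (1 - 2 * ε) ≠ 0 := by linarith
  have hne' : (1 - ε * 2) ≠ 0 := by linarith
  have e1 : dir (PP ε) (pp ε) (fun x => Real.exp (f x)) f =
      (ε / 2) * ((Real.exp (f 0) - Real.exp (f 1)) * (f 0 - f 1) +
        (Real.exp (f 1) - Real.exp (f 2)) * (f 1 - f 2)) := by
    simp [dir, PP, pp, Fin.sum_univ_three, Matrix.mulVec, dotProduct, Matrix.one_apply]
    field_simp; ring
  set m := ∑ x, pp ε x * Real.exp (f x) with hm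
  have hg := fun x => Real.exp_pos (f x)
  have hp := pp_pos h0 h1
  have hmx : ∀ x, ε * Real.exp (f x) ≤ m := fun x =>
    (mul_le_mul_of_nonneg_right (pp_ge h0 h1 x) (hg x).le).trans
      (Finset.single_le_sum (f := fun x => pp ε x * Real.exp (f x))
        (fun y _ => (mul_pos (hp y) (hg y)).le) (mem_univ x))
  have hm0 : 0 < m := lt_of_lt_of_le (mul_pos h0 (hg 0)) (hmx 0)
  have e2 : entr (pp ε) (fun x => Real.exp (f x)) =
      ∑ x, pp ε x * (Real.exp (f x) * Real.log (Real.exp (f x) / m) - Real.exp (f x) + m) := by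
    simp only [entr, ← hm, Real.log_div (hg _).ne' hm0.ne', mul_add, mul_sub,
      Finset.sum_add_distrib, Finset.sum_sub_distrib, ← Finset.sum_mul, pp_sum h0 h1,
      ← mul_assoc]
    ring
  have t1 : ∀ x, Real.exp (f x) ≠ m →
      0 < Real.exp (f x) * Real.log (Real.exp (f x) / m) - Real.exp (f x) + m := by
    intro x hx
    have h2 := Real.log_lt_sub_one_of_pos (div_pos hm0 (hg x))
      (fun h => hx ((div_eq_one_iff_eq (hg x).ne').1 h).symm)
    have h3 := mul_lt_mul_of_pos_left h2 (hg x)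
    rw [← inv_div, Real.log_inv, mul_sub, inv_div, mul_div_cancel₀ _ (hg x).ne'] at h3
    linarith
  have t2 : ∀ x, 0 ≤ Real.exp (f x) * Real.log (Real.exp (f x) / m) - Real.exp (f x) + m := by
    intro x
    by_cases hx : Real.exp (f x) = m
    · simp [hx, hm0.ne']
    · exact (t1 x hx).le
  have hE : 0 < entr (pp ε) (fun x => Real.exp (f x)) := by
    rw [e2]
    obtain ⟨z, hz⟩ : ∃ z, Real.exp (f z) ≠ m := by
      by_contra! h
      exact hxy (Real.exp_injective ((h x).trans (h y).symm))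
    exact Finset.sum_pos' (fun x _ => mul_nonneg (hp x).le (t2 x))
      ⟨z, mem_univ _, mul_pos (hp z) (t1 z hz)⟩
  have hsq : ∀ x, Real.exp (f x) = Real.exp (f x / 2) ^ 2 := fun x => by
    rw [← Real.exp_nat_mul]; congr 1; ring
  have t3 : ∀ x y, ε * (Real.exp (f x) - Real.exp (f y)) ^ 2 ≤
      4 * m * (Real.exp (f x / 2) - Real.exp (f y / 2)) ^ 2 := by
    intro x y
    have a := hmx x; have b := hmx y
    rw [hsq x] at a ⊢; rw [hsq y] at b ⊢
    set u := Real.exp (f x / 2)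
    set v := Real.exp (f y / 2)
    have h2 : ε * (u + v) ^ 2 ≤ 4 * m := by nlinarith [mul_nonneg h0.le (sq_nonneg (u - v))]
    calc ε * (u ^ 2 - v ^ 2) ^ 2 = (ε * (u + v) ^ 2) * (u - v) ^ 2 := by ring
      _ ≤ _ := by gcongr
  have t4 : m * entr (pp ε) (fun x => Real.exp (f x)) ≤ (Real.exp (f 0) - Real.exp (f 1)) ^ 2 +
      (Real.exp (f 1) - Real.exp (f 2)) ^ 2 + (Real.exp (f 0) - Real.exp (f 2)) ^ 2 := by
    rw [e2, Finset.mul_sum]
    have h2 : ∀ x, m * (pp ε x * (Real.exp (f x) * Real.log (Real.exp (f x) / m) -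
        Real.exp (f x) + m)) ≤ pp ε x * (Real.exp (f x) - m) ^ 2 := by
      intro x
      have h3 := Real.log_le_sub_one_of_pos (div_pos (hg x) hm0)
      have h4 := mul_le_mul_of_nonneg_left h3 (mul_pos hm0 (hg x)).le
      have h5 : m * Real.exp (f x) * (Real.exp (f x) / m - 1) =
          Real.exp (f x) ^ 2 - m * Real.exp (f x) := by field_simp
      rw [h5] at h4
      rw [mul_left_comm]
      exact mul_le_mul_of_nonneg_left (by nlinarith) (hp x).le
    refine (Finset.sum_le_sum fun x _ => h2 x).trans ?_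
    have h3 : ∑ x, pp ε x * (Real.exp (f x) - m) ^ 2 =
        ε * ε * (Real.exp (f 0) - Real.exp (f 1)) ^ 2 +
        ε * (1 - 2 * ε) * (Real.exp (f 1) - Real.exp (f 2)) ^ 2 +
        ε * (1 - 2 * ε) * (Real.exp (f 0) - Real.exp (f 2)) ^ 2 := by
      simp only [hm, pp, Fin.sum_univ_three, Matrix.cons_val]; ring
    rw [h3]
    have a1 : ε * ε ≤ 1 := by nlinarith
    have a2 : ε * (1 - 2 * ε) ≤ 1 := by nlinarith
    nlinarith [sq_nonneg (Real.exp (f 0) - Real.exp (f 1)),
      sq_nonneg (Real.exp (f 1) - Real.exp (f 2)), sq_nonneg (Real.exp (f 0) - Real.exp (f 2))]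
  rw [le_div_iff₀ hE, e1]
  have p1 := psi (f 0) (f 1)
  have p2 := psi (f 1) (f 2)
  have q1 := t3 0 1; have q2 := t3 1 2; have q3 := t3 0 2
  set s0 := Real.exp (f 0 / 2)
  set s1 := Real.exp (f 1 / 2)
  set s2 := Real.exp (f 2 / 2)
  have q4 : (s0 - s2) ^ 2 ≤ 2 * (s0 - s1) ^ 2 + 2 * (s1 - s2) ^ 2 := by
    nlinarith [sq_nonneg (s0 - 2 * s1 + s2)]
  have q5 : m * (ε * entr (pp ε) (fun x => Real.exp (f x))) ≤
      m * (12 * ((s0 - s1) ^ 2 + (s1 - s2) ^ 2)) := by
    have := mul_le_mul_of_nonneg_left t4 h0.le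
    have := mul_le_mul_of_nonneg_left q4 hm0.le
    nlinarith
  have q6 := le_of_mul_le_mul_left q5 hm0
  have q7 := mul_le_mul_of_nonneg_left q6 h0.le
  have q8 := mul_le_mul_of_nonneg_left (add_le_add p1 p2) h0.le
  nlinarith

theorem result (c : ℝ) (hc : 0 < c) (C : ℝ) :
    ∃ (P : Matrix (Fin 3) (Fin 3) ℝ) (π : Fin 3 → ℝ),
      (∀ x y, 0 ≤ P x y) ∧ (∀ x, ∑ y, P x y = 1) ∧
      (∀ x y, Relation.ReflTransGen (fun a b => 0 < P a b) x y) ∧
      (∀ x, 0 < π x) ∧ ∑ x, π x = 1 ∧ (∀ x y, π x * P x y = π y * P y x) ∧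
      0 < cMLS P π ∧ C * max (rhoEnt c P π) (tauEnt P π) < 1 / cMLS P π := by
  have h0 : Tendsto (fun m : ℝ => 24 * |C| * (m ^ 2 * Real.exp (-m))) atTop (𝓝 (24 * |C| * 0)) :=
    (Real.tendsto_pow_mul_exp_neg_atTop_nhds_zero 2).const_mul _
  have h1 : Tendsto (fun m : ℝ => 2 * Real.exp (-m)) atTop (𝓝 (2 * 0)) :=
    Real.tendsto_exp_neg_atTop_nhds_zero.const_mul _
  obtain ⟨m, hm1, hm2, hm3⟩ := ((h0.eventually (gt_mem_nhds (show 24 * |C| * 0 < 1 by simp))).and
    ((h1.eventually (ge_mem_nhds (show 2 * 0 < c by simpa))).and (eventually_ge_atTop 10))).exists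
  have hε0 := Real.exp_pos (-Real.exp m)
  have hε1 : Real.exp (-Real.exp m) ≤ 1 / 10 := by
    rw [Real.exp_neg, ← one_div]
    refine one_div_le_one_div_of_le (by norm_num) ?_
    linarith [Real.add_one_le_exp m, Real.add_one_le_exp (Real.exp m)]
  have hp := cMLS_pos hε0 hε1
  refine ⟨PP _, pp _, PP_nn hε0 hε1, PP_row hε0 hε1, PP_irr hε0 hε1, pp_pos hε0 hε1,
    pp_sum hε0 hε1, PP_rev hε0 hε1, hp, ?_⟩
  have h2 := cMLS_le m hm3
  have h3 := times_le c m hc hm3 hm2
  have h4 := max_le h3.2 h3.1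
  have h5 : 0 ≤ tauEnt (PP (Real.exp (-Real.exp m))) (pp (Real.exp (-Real.exp m))) :=
    Real.iSup_nonneg fun x => Real.sInf_nonneg fun t ht => ht.1
  have h6 := h5.trans (le_max_right
    (rhoEnt c (PP (Real.exp (-Real.exp m))) (pp (Real.exp (-Real.exp m)))) _)
  rw [lt_div_iff₀ hp]
  have h7 : (m + 1) / Real.exp m ≤ 2 * m * Real.exp (-m) := by
    rw [Real.exp_neg, ← div_eq_mul_inv]; gcongr; linarith
  calc _ ≤ |C| * (12 * m) * (2 * m * Real.exp (-m)) := by
        refine mul_le_mul (mul_le_mul (le_abs_self C) h4 h6 (abs_nonneg C)) (h2.trans h7) hp.le ?_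
        exact mul_nonneg (abs_nonneg C) (by linarith)
    _ = 24 * |C| * (m ^ 2 * Real.exp (-m)) := by ring
    _ < 1 := hm1

end Pool.Agent.Results.MP_bada7b_pr.ThreeState
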